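import Pool.Agent.Helper61.UC.Asm

/-!
# Curves and maps regular at infinity, uniformly in the orbit: finitely generated rings, closed sets
over the complex numbers
-/

set_option autoImplicit false

namespace Pool.Agent.Helper61.UC

open MvPolynomial Filter Topology NumberField Module
open Pool.Agent.Helper64.Vojta (Pl nv above mem_above)
open Pool.Agent.Helper26.RC
open Pool.Agent.Helper61.DC

section ring

variable {K : Type*} [Field K] [NumberField K] {N : ℕ}

theorem fin_gt (c : K) : {w : FinitePlace K | 1 < w c}.Finite := by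
  by_cases hc : c = 0
  · have : {w : FinitePlace K | 1 < w c} = ∅ := by
      ext w
      simp only [Set.mem_ofPred_eq, Set.mem_empty_iff_false, iff_false, not_lt]
      rw [hc, map_zero]
      exact zero_le_one
    rw [this]
    exact Set.finite_empty
  · have h : (Function.mulSupport fun w : FinitePlace K => w c).Finite :=
      FinitePlace.hasFiniteMulSupport hc
    refine h.subset fun w hw => ?_
    rw [Function.mem_mulSupport]
    exact ne_of_gt hw

theorem eval_le_one {w : FinitePlace K} {f : MvPolynomial (Fin N) K} {y : Fin N → K}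
    (hf : ∀ m, w (coeff m f) ≤ 1) (hy : ∀ j, w (y j) ≤ 1) : nv (.inr w) (eval y f) ≤ 1 := by
  rw [MvPolynomial.eval_eq']
  refine Pool.Agent.Helper64.Vojta.nv_sum_le_inr w _ _ 1 zero_le_one fun m _ => ?_
  change w _ ≤ 1
  rw [map_mul, map_prod]
  refine mul_le_one₀ (hf m) (Finset.prod_nonneg fun j _ => apply_nonneg w _) ?_
  refine Finset.prod_le_one (fun j _ => apply_nonneg w _) fun j _ => ?_
  rw [map_pow]
  exact pow_le_one₀ (apply_nonneg w _) (hy j)

theorem add_le_one (w : FinitePlace K) {x y : K} (hx : w x ≤ 1) (hy : w y ≤ 1) : w (x + y) ≤ 1 := by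
  have h := Pool.Agent.Helper64.Vojta.nv_sum_le_inr w (Finset.univ : Finset (Fin 2)) ![x, y] 1
    zero_le_one fun i _ => by
      fin_cases i
      · exact hx
      · exact hy
  rw [Fin.sum_univ_two] at h
  exact h

theorem int_le_one (w : FinitePlace K) (n : ℤ) : w (n : K) ≤ 1 := by
  have h0 : w (0 : K) ≤ 1 := by rw [map_zero]; exact zero_le_one
  have h1 : w (1 : K) ≤ 1 := by rw [map_one]
  have hneg : ∀ x : K, w x ≤ 1 → w (-x) ≤ 1 := by
    intro x hx
    have h2 : w (-x) = w x := by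
      change w.1 (-x) = w.1 x
      exact w.1.map_neg x
    rwa [h2]
  induction n with
  | zero => rw [Int.cast_zero]; exact h0
  | succ n ih =>
    rw [Int.cast_add, Int.cast_one]
    exact add_le_one w ih h1
  | pred n ih =>
    rw [Int.cast_sub, Int.cast_one, sub_eq_add_neg]
    exact add_le_one w ih (hneg _ h1)

theorem exists_S' (Φ : Fin N → MvPolynomial (Fin N) K) {R : Subalgebra ℤ K} (hR : R.FG) :
    ∃ S : Finset (Pl K), (∀ v, v ∉ S → ∀ x : Fin N → K, (∀ i, nv v (x i) ≤ 1) →
      ∀ i, nv v (pmap Φ x i) ≤ 1) ∧ ∀ v, v ∉ S → ∀ a ∈ R, nv v a ≤ 1 := by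
  classical
  obtain ⟨A, rfl⟩ := hR
  have hT : ((⋃ i, ⋃ m ∈ ((Φ i).support : Set _), {w : FinitePlace K | 1 < w (coeff m (Φ i))}) ∪
      ⋃ a ∈ (A : Set K), {w : FinitePlace K | 1 < w a}).Finite := by
    refine Set.Finite.union ?_ ?_
    · exact Set.finite_iUnion fun i => Set.Finite.biUnion (Finset.finite_toSet _) fun m _ => fin_gt _
    · exact Set.Finite.biUnion (Finset.finite_toSet _) fun a _ => fin_gt _
  refine ⟨(Finset.univ : Finset (InfinitePlace K)).disjSum hT.toFinset, fun v hv => ?_, fun v hv => ?_⟩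
  · rcases v with v | w
    · exact absurd (Finset.inl_mem_disjSum.2 (Finset.mem_univ v)) hv
    · have hw : w ∉ hT.toFinset := fun h => hv (Finset.inr_mem_disjSum.2 h)
      rw [Set.Finite.mem_toFinset, Set.mem_union, not_or] at hw
      have h1 : ∀ i m, w (coeff m (Φ i)) ≤ 1 := by
        intro i m
        by_cases hm : m ∈ (Φ i).support
        · by_contra hcon
          rw [not_le] at hcon
          apply hw.1
          simp only [Set.mem_iUnion]
          exact ⟨i, m, hm, hcon⟩
        · rw [MvPolynomial.notMem_support_iff.1 hm, map_zero]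
          exact zero_le_one
      intro x hx i
      exact eval_le_one (h1 i) hx
  · rcases v with v | w
    · exact absurd (Finset.inl_mem_disjSum.2 (Finset.mem_univ v)) hv
    · have hw : w ∉ hT.toFinset := fun h => hv (Finset.inr_mem_disjSum.2 h)
      rw [Set.Finite.mem_toFinset, Set.mem_union, not_or] at hw
      intro a ha
      change w a ≤ 1
      induction ha using Algebra.adjoin_induction with
      | mem x hx =>
        by_contra hcon
        rw [not_le] at hcon
        apply hw.2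
        simp only [Set.mem_iUnion]
        exact ⟨x, hx, hcon⟩
      | algebraMap n =>
        rw [eq_intCast]
        exact int_le_one w n
      | add x y _ _ hx hy => exact add_le_one w hx hy
      | mul x y _ _ hx hy =>
        rw [map_mul]
        exact mul_le_one₀ hx (apply_nonneg w _) hy

end ring

section desc

variable {K : Type} [Field K] [NumberField K] [Algebra K ℂ] {N d : ℕ}

/-- the equations over the number field -/
noncomputable def eqs (K : Type) [Field K] [Algebra K ℂ] (I : Ideal (MvPolynomial (Fin N) ℂ)) :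
    Ideal (MvPolynomial (Fin N) K) :=
  Ideal.span {g | ∃ f ∈ I, ∃ φ : ℂ →ₗ[K] K, g = lc φ f}

omit [NumberField K] in
theorem lc_mem_eqs (I : Ideal (MvPolynomial (Fin N) ℂ)) :
    ∀ f ∈ I, ∀ φ : ℂ →ₗ[K] K, lc φ f ∈ eqs K I :=
  fun f hf φ => Ideal.subset_span ⟨f, hf, φ, rfl⟩

omit [NumberField K] in
theorem mem_iff_eqs (I : Ideal (MvPolynomial (Fin N) ℂ)) (x : Fin N → K) :
    (∀ f ∈ I, eval (fun i => algebraMap K ℂ (x i)) f = 0) ↔ ∀ g ∈ eqs K I, eval x g = 0 := by
  constructor
  · intro h g hg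
    have h1 : eqs K I ≤ RingHom.ker (eval x) := by
      refine Ideal.span_le.2 ?_
      rintro _ ⟨f, hf, φ, rfl⟩
      change eval x (lc φ f) = 0
      rw [eval_lc, h f hf, map_zero]
    exact h1 hg
  · intro h f hf
    rw [← Module.forall_dual_apply_eq_zero_iff K]
    intro φ
    rw [← eval_lc]
    exact h _ (lc_mem_eqs I f hf φ)

theorem curvesU (hd : 2 ≤ d) {Φ : Fin N → MvPolynomial (Fin N) K} (hΦ : Reg ℂ d Φ)
    {R : Subalgebra ℤ K} (hR : R.FG) (I : Ideal (MvPolynomial (Fin N) ℂ))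
    (hI : ∀ P : Ideal (MvPolynomial (Fin N) ℂ), P.IsPrime → I ≤ P →
      Algebra.trdeg ℂ (MvPolynomial (Fin N) ℂ ⧸ P) ≤ 1)
    (hmult : ∀ (L : Type) [Field L] [Algebra K L] (j : L →ₐ[K] ℂ) (z : Fin N → L),
      FiniteDimensional K L → finrank K L ≤ 2 → z ≠ 0 →
      (∀ f ∈ I, eval (fun i => j (z i)) (homogeneousComponent f.totalDegree f) = 0) →
      (∃ k, 0 < k ∧ ∃ c : L, c ≠ 0 ∧ ∀ i, eval z ((bind₁ (tf L d Φ))^[k] (X i)) = c * z i) →
      ∃ k, 0 < k ∧ (∃ c : L, c ≠ 0 ∧ ∀ i, eval z ((bind₁ (tf L d Φ))^[k] (X i)) = c * z i) ∧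
        Pool.Agent.Helper52.RP.mult z (Ideal.span (Set.range fun i =>
          (bind₁ (tf L d Φ))^[k] (X i) - C (eval z ((bind₁ (tf L d Φ))^[k] (X i))))) < (d ^ k : ℕ)) :
    ∃ n0 Q, 0 < Q ∧ ∀ α : Fin N → K, (∀ i, α i ∈ R) → ∀ n, n0 ≤ n →
      ((∀ f ∈ I, eval (fun i => algebraMap K ℂ (orb Φ α n i)) f = 0) ↔
        ∀ f ∈ I, eval (fun i => algebraMap K ℂ (orb Φ α (n + Q) i)) f = 0) := by
  obtain ⟨S, hS1, hS2⟩ := exists_S' Φ hR
  obtain ⟨n0, Q, hQ, h⟩ := uniform (Ω := algebraicClosure K ℂ) (I := eqs K I) hd (reg_closure hΦ) hS1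
    (fun P _ hJP => dim_desc hI (lc_mem_eqs I) P hJP) (by
      intro F hF1 hF2 z hz hinf hper
      let j : F →ₐ[K] ℂ := (algebraicClosure K ℂ).val.comp F.val
      exact hmult F j z hF1 hF2 hz (fun f hf => inf_desc (lc_mem_eqs I) j z hinf f hf) hper)
  refine ⟨n0, Q, hQ, fun α hα n hn => ?_⟩
  have h1 := h α (fun v hv i => hS2 v hv _ (hα i)) n hn
  rw [mem_iff_eqs, mem_iff_eqs]
  exact h1

end desc

end Pool.Agent.Helper61.UC
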