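import Pool.Agent.Helper61.UC.Lev

/-!
# Integral points with a finite orbit
-/

set_option autoImplicit false

namespace Pool.Agent.Helper61.UC

open MvPolynomial Filter Topology NumberField
open Pool.Agent.Helper64.Vojta (Pl nv above mem_above)
open Pool.Agent.Helper26.RC

section grow

variable {K : Type*} [Field K] {N d : ℕ} {Φ : Fin N → MvPolynomial (Fin N) K}
  {μ : AbsoluteValue K ℝ} {C : ℝ}

theorem grow_one (hd : 2 ≤ d)
    (hC : ∀ x, |Real.log (sz μ (pmap Φ x)) - d * Real.log (sz μ x)| ≤ C) {x : Fin N → K}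
    (hx : C < Real.log (sz μ x)) : Real.log (sz μ x) < Real.log (sz μ (pmap Φ x)) := by
  have h1 := (abs_le.1 (hC x)).1
  have h2 : (2 : ℝ) ≤ d := by exact_mod_cast hd
  have h3 := log_sz_nonneg μ x
  nlinarith

theorem grow_iter (hd : 2 ≤ d)
    (hC : ∀ x, |Real.log (sz μ (pmap Φ x)) - d * Real.log (sz μ x)| ≤ C) {x : Fin N → K}
    (hx : C < Real.log (sz μ x)) (n : ℕ) : C < Real.log (sz μ (orb Φ x n)) ∧
      Real.log (sz μ (orb Φ x n)) < Real.log (sz μ (orb Φ x (n + 1))) := by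
  induction n with
  | zero =>
    refine ⟨hx, ?_⟩
    rw [orb_succ]
    exact grow_one hd hC hx
  | succ n ih =>
    have h1 := ih.1.trans ih.2
    refine ⟨h1, ?_⟩
    rw [orb_succ Φ x (n + 1)]
    exact grow_one hd hC h1

theorem log_le_of_eq (hd : 2 ≤ d)
    (hC : ∀ x, |Real.log (sz μ (pmap Φ x)) - d * Real.log (sz μ x)| ≤ C) {x c : Fin N → K} {n : ℕ}
    (h : orb Φ x n = c) : Real.log (sz μ x) ≤ max C (Real.log (sz μ c)) := by
  by_contra hcon
  rw [not_le, max_lt_iff] at hcon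
  have h1 : ∀ n, Real.log (sz μ x) ≤ Real.log (sz μ (orb Φ x n)) := by
    intro n
    induction n with
    | zero => exact le_rfl
    | succ n ih => exact ih.trans (grow_iter hd hC hcon.1 n).2.le
  have h2 := h1 n
  rw [h] at h2
  linarith

theorem log_le_of_pre (hd : 2 ≤ d)
    (hC : ∀ x, |Real.log (sz μ (pmap Φ x)) - d * Real.log (sz μ x)| ≤ C) {x : Fin N → K}
    (h : ¬ Function.Injective (orb Φ x)) : Real.log (sz μ x) ≤ C := by
  by_contra hcon
  rw [not_le] at hcon
  apply h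
  have h1 : StrictMono fun n => Real.log (sz μ (orb Φ x n)) :=
    strictMono_nat_of_lt_succ fun n => (grow_iter hd hC hcon n).2
  intro a b hab
  exact h1.injective (congrArg (fun y => Real.log (sz μ y)) hab)

end grow

section pre

variable {K : Type*} [Field K] [NumberField K] {N d : ℕ} {Φ : Fin N → MvPolynomial (Fin N) K}
  {S : Finset (Pl K)}

/-- the integral points -/
def Wset (S : Finset (Pl K)) (N : ℕ) : Set (Fin N → K) := {x | ∀ v, v ∉ S → ∀ i, nv v (x i) ≤ 1}

theorem exists_bounds {Ω : Type*} [Field Ω] [Algebra K Ω] [IsAlgClosed Ω] (hd : 2 ≤ d)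
    (h : Reg Ω d Φ) : ∀ v : Pl K, ∃ C : ℝ, ∀ x, |Real.log (sz (av v) (pmap Φ x)) -
      d * Real.log (sz (av v) x)| ≤ C := by
  intro v
  obtain ⟨e, Q, hQ, hc⟩ := exists_cert h
  exact sz_pmap (by omega) h.1 hQ hc (av v)

theorem finite_pre {Ω : Type*} [Field Ω] [Algebra K Ω] [IsAlgClosed Ω] (hd : 2 ≤ d)
    (h : Reg Ω d Φ) (S : Finset (Pl K)) :
    {x | x ∈ Wset S N ∧ ¬ Function.Injective (orb Φ x)}.Finite := by
  choose C hC using exists_bounds hd h
  refine (finite_bdd (N := N) S (∑ v ∈ S, |C v|)).subset ?_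
  rintro x ⟨hx, hx'⟩
  refine ⟨hx, fun v hv => ?_⟩
  refine (log_le_of_pre hd (hC v) hx').trans ((le_abs_self _).trans ?_)
  exact Finset.single_le_sum (f := fun v => |C v|) (fun v _ => abs_nonneg _) hv

omit [NumberField K] in
theorem pre_period {x : Fin N → K} (h : ¬ Function.Injective (orb Φ x)) :
    ∃ n0 m, 0 < m ∧ ∀ n, n0 ≤ n → orb Φ x (n + m) = orb Φ x n := by
  have : ∃ n0 m, 0 < m ∧ orb Φ x (n0 + m) = orb Φ x n0 := by
    unfold Function.Injective at h
    push Not at h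
    obtain ⟨a, b, hab, hne⟩ := h
    rcases lt_or_gt_of_ne hne with h | h
    · exact ⟨a, b - a, by omega, by rw [Nat.add_sub_cancel' h.le]; exact hab.symm⟩
    · exact ⟨b, a - b, by omega, by rw [Nat.add_sub_cancel' h.le]; exact hab⟩
  obtain ⟨n0, m, hm, hn0⟩ := this
  refine ⟨n0, m, hm, fun n hn => ?_⟩
  induction n, hn using Nat.le_induction with
  | base => exact hn0
  | succ n hn ih =>
    rw [show n + 1 + m = (n + m) + 1 by ring, orb_succ, ih, ← orb_succ]

/-- one period and one preperiod for all integral points with a finite orbit -/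
theorem exists_pre {Ω : Type*} [Field Ω] [Algebra K Ω] [IsAlgClosed Ω] (hd : 2 ≤ d)
    (h : Reg Ω d Φ) (S : Finset (Pl K)) : ∃ n0 m, 0 < m ∧ ∀ x ∈ Wset S N,
      ¬ Function.Injective (orb Φ x) → ∀ n, n0 ≤ n → ∀ k, orb Φ x (n + m * k) = orb Φ x n := by
  classical
  have hfin := finite_pre hd h S
  have h1 : ∀ x : Fin N → K, ∃ n0 m, 0 < m ∧ (¬ Function.Injective (orb Φ x) →
      ∀ n, n0 ≤ n → orb Φ x (n + m) = orb Φ x n) := by
    intro x
    by_cases hx : Function.Injective (orb Φ x)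
    · exact ⟨0, 1, one_pos, fun h => absurd hx h⟩
    · obtain ⟨n0, m, hm, h⟩ := pre_period hx
      exact ⟨n0, m, hm, fun _ => h⟩
  choose n0 m hm hper using h1
  refine ⟨∑ x ∈ hfin.toFinset, n0 x, ∏ x ∈ hfin.toFinset, m x, Finset.prod_pos fun x _ => hm x,
    fun x hxW hx n hn k => ?_⟩
  have hmem : x ∈ hfin.toFinset := hfin.mem_toFinset.2 ⟨hxW, hx⟩
  have h2 : n0 x ≤ n := (Finset.single_le_sum (f := n0) (fun _ _ => Nat.zero_le _) hmem).trans hn
  obtain ⟨r, hr⟩ := Finset.dvd_prod_of_mem m hmem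
  have h3 : ∀ k, orb Φ x (n + m x * k) = orb Φ x n := by
    intro k
    induction k with
    | zero => rfl
    | succ k ih =>
      rw [Nat.mul_succ, ← add_assoc, hper x hx _ (h2.trans (Nat.le_add_right _ _)), ih]
  rw [hr, mul_assoc]
  exact h3 _

end pre

end Pool.Agent.Helper61.UC
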