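import Pool.Agent.Helper61.UC.Main
import Pool.Agent.Helper61.UC.Pre

/-!
# Curves and maps regular at infinity, uniformly in the orbit: assembly
-/

set_option autoImplicit false

namespace Pool.Agent.Helper61.UC

open MvPolynomial Filter Topology NumberField
open Pool.Agent.Helper64.Vojta (Pl nv above mem_above)
open Pool.Agent.Helper26.RC
open Pool.Agent.Helper52.RP (MultLt)

section aux

variable {K : Type*} [Field K] {N : ℕ}

theorem ev_all {U : Ultrafilter ℕ} {x : ℕ → Fin N → K} {P : Ideal (MvPolynomial (Fin N) K)}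
    (hP : P ≤ van U x) : ∀ᶠ n in (U : Filter ℕ), ∀ f ∈ P, eval (x n) f = 0 := by
  obtain ⟨s, hs⟩ := (isNoetherianRing_iff_ideal_fg _).1 inferInstance P
  have h1 : ∀ᶠ n in (U : Filter ℕ), ∀ f ∈ s, eval (x n) f = 0 := by
    rw [Filter.eventually_all_finset]
    intro f hf
    have : f ∈ P := by rw [← hs]; exact Ideal.subset_span hf
    exact hP this
  filter_upwards [h1] with n hn f hf
  rw [← hs] at hf
  have h2 : Ideal.span (s : Set (MvPolynomial (Fin N) K)) ≤ RingHom.ker (eval (x n)) :=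
    Ideal.span_le.2 fun f hf => hn f hf
  exact h2 hf

theorem closed_mul {Φ : Fin N → MvPolynomial (Fin N) K} {P : Ideal (MvPolynomial (Fin N) K)} {m : ℕ}
    (hP : ∀ f ∈ P, (cmp Φ)^[m] f ∈ P) (k : ℕ) : ∀ f ∈ P, (cmp Φ)^[m * k] f ∈ P := by
  induction k with
  | zero => intro f hf; exact hf
  | succ k ih =>
    intro f hf
    rw [Nat.mul_succ, Function.iterate_add_apply]
    exact ih _ (hP f hf)

theorem orb_add (Φ : Fin N → MvPolynomial (Fin N) K) (x : Fin N → K) (n k : ℕ) :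
    orb Φ x (n + k) = (pmap Φ)^[k] (orb Φ x n) := by
  unfold orb
  rw [← Function.iterate_add_apply, add_comm]

end aux

section main

variable {K Ω : Type*} [Field K] [NumberField K] [Field Ω] [Algebra K Ω] {N d : ℕ}

theorem core [IsAlgClosure K Ω] (hd : 2 ≤ d) {Φ : Fin N → MvPolynomial (Fin N) K}
    (hΦ : Reg Ω d Φ) {α : ℕ → Fin N → K} {τ : ℕ → ℕ} {S : Finset (Pl K)}
    (hSΦ : ∀ v, v ∉ S → ∀ x : Fin N → K, (∀ i, nv v (x i) ≤ 1) → ∀ i, nv v (pmap Φ x i) ≤ 1)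
    (hSα : ∀ n, α n ∈ Wset S N)
    {I : Ideal (MvPolynomial (Fin N) K)}
    (hI : ∀ P : Ideal (MvPolynomial (Fin N) K), P.IsPrime → I ≤ P →
      Algebra.trdeg K (MvPolynomial (Fin N) K ⧸ P) ≤ 1) (hcrit : MultLt Ω d Φ I)
    {U : Ultrafilter ℕ} (hτ : Tendsto τ (U : Filter ℕ) atTop)
    (hR : ∀ᶠ n in (U : Filter ℕ), ∀ f ∈ I, eval (orb Φ (α n) (τ n)) f = 0) :
    (∃ a ∈ Wset S N, ¬ Function.Injective (orb Φ a) ∧ ∀ᶠ n in (U : Filter ℕ), α n = a) ∨
    (van U (lev Φ α τ 0) ∈ I.minimalPrimes ∧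
      (∃ m, 0 < m ∧ ∀ l, van U (lev Φ α τ (l + m)) = van U (lev Φ α τ l)) ∧
      ∀ l, ∀ P : Ideal (MvPolynomial (Fin N) K), P.IsPrime → P ≤ van U (lev Φ α τ l) →
        Algebra.trdeg K (MvPolynomial (Fin N) K ⧸ P) ≤ 1 → P = van U (lev Φ α τ l)) := by
  classical
  have : IsAlgClosed Ω := IsAlgClosure.isAlgClosed K
  by_cases hne : ∀ c, ∀ᶠ n in (U : Filter ℕ), lev Φ α τ 0 n ≠ c
  · right
    have hmin : ∀ l, ∀ P : Ideal (MvPolynomial (Fin N) K), P.IsPrime → P ≤ van U (lev Φ α τ l) →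
        Algebra.trdeg K (MvPolynomial (Fin N) K ⧸ P) ≤ 1 → P = van U (lev Φ α τ l) := by
      intro l P hP hle htr
      exact prime_eq hle htr (van_transc fun c => lev_ne hτ hne l c)
    have hR' : ∀ᶠ n in (U : Filter ℕ), ∀ f ∈ I, eval (lev Φ α τ 0 n) f = 0 := hR
    have hIle : I ≤ van U (lev Φ α τ 0) := by
      intro f hf
      rw [mem_van]
      filter_upwards [hR'] with n hn
      exact hn f hf
    obtain ⟨P, hP, hle⟩ := Ideal.exists_minimalPrimes_le hIle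
    have h1 := hmin 0 P hP.1.1 hle (hI P hP.1.1 hP.1.2)
    refine ⟨h1 ▸ hP, ?_, hmin⟩
    exact main_lev hd hΦ hSΦ (fun n v hv i => hSα n v hv i) hI hcrit hτ hne hR'
  · left
    push Not at hne
    obtain ⟨c, hc'⟩ := hne
    choose C hC using exists_bounds (Ω := Ω) hd hΦ
    have hmem : ∀ᶠ n in (U : Filter ℕ), α n ∈ {x : Fin N → K | (∀ v, v ∉ S → ∀ i, nv v (x i) ≤ 1) ∧
        ∀ v ∈ S, Real.log (sz (av v) x) ≤ ∑ v ∈ S, |max (C v) (Real.log (sz (av v) c))|} := by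
      filter_upwards [hc'] with n hn
      refine ⟨hSα n, fun v hv => ?_⟩
      refine (log_le_of_eq hd (hC v) (n := τ n) hn).trans ((le_abs_self _).trans ?_)
      exact Finset.single_le_sum (f := fun v => |max (C v) (Real.log (sz (av v) c))|)
        (fun v _ => abs_nonneg _) hv
    obtain ⟨a, ha, h2⟩ := Ultrafilter.eq_pure_of_finite_mem (finite_bdd S _)
      (show _ ∈ U.map α from hmem)
    have h3 : ({a} : Set (Fin N → K)) ∈ U.map α := by
      rw [h2]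
      exact Ultrafilter.mem_pure.2 rfl
    have h4 : ∀ᶠ n in (U : Filter ℕ), α n = a := h3
    refine ⟨a, ha.1, fun hinj => ?_, h4⟩
    obtain ⟨n, hn1, hn2⟩ := (hc'.and h4).exists
    obtain ⟨n', ⟨hn1', hn2'⟩, hn3⟩ := ((hc'.and h4).and (hτ.eventually_gt_atTop (τ n))).exists
    have e1 : orb Φ a (τ n) = c := by
      rw [← hn2]
      exact hn1
    have e2 : orb Φ a (τ n') = c := by
      rw [← hn2']
      exact hn1'
    have e3 := hinj (e1.trans e2.symm)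
    omega

/-- **Uniformity in the point.** -/
theorem uniform [IsAlgClosure K Ω] (hd : 2 ≤ d) {Φ : Fin N → MvPolynomial (Fin N) K}
    (hΦ : Reg Ω d Φ) {S : Finset (Pl K)}
    (hSΦ : ∀ v, v ∉ S → ∀ x : Fin N → K, (∀ i, nv v (x i) ≤ 1) → ∀ i, nv v (pmap Φ x i) ≤ 1)
    {I : Ideal (MvPolynomial (Fin N) K)}
    (hI : ∀ P : Ideal (MvPolynomial (Fin N) K), P.IsPrime → I ≤ P →
      Algebra.trdeg K (MvPolynomial (Fin N) K ⧸ P) ≤ 1) (hcrit : MultLt Ω d Φ I) :
    ∃ n0 Q, 0 < Q ∧ ∀ a ∈ Wset S N, ∀ n, n0 ≤ n →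
      ((∀ f ∈ I, eval (orb Φ a n) f = 0) ↔ ∀ f ∈ I, eval (orb Φ a (n + Q)) f = 0) := by
  classical
  have : IsAlgClosed Ω := IsAlgClosure.isAlgClosed K
  obtain ⟨n1, m1, hm1, hpre⟩ := exists_pre (Ω := Ω) hd hΦ S
  have hfin : I.minimalPrimes.Finite := Ideal.finite_minimalPrimes_of_isNoetherianRing _ _
  have hper : ∀ P : Ideal (MvPolynomial (Fin N) K), ∃ m, 0 < m ∧
      ((∃ m, 0 < m ∧ ∀ f ∈ P, (cmp Φ)^[m] f ∈ P) → ∀ f ∈ P, (cmp Φ)^[m] f ∈ P) := by
    intro P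
    by_cases h : ∃ m, 0 < m ∧ ∀ f ∈ P, (cmp Φ)^[m] f ∈ P
    · obtain ⟨m, hm, hP⟩ := h
      exact ⟨m, hm, fun _ => hP⟩
    · exact ⟨1, one_pos, fun h' => absurd h' h⟩
  choose mP hmP hcl using hper
  obtain ⟨Q, hQdef⟩ : ∃ Q, Q = (∏ P ∈ hfin.toFinset, mP P) * m1 := ⟨_, rfl⟩
  have hQ : 0 < Q := by
    rw [hQdef]
    exact Nat.mul_pos (Finset.prod_pos fun P _ => hmP P) hm1
  -- the periodic components are stable under the `Q`-th iterate
  have hclQ : ∀ P ∈ I.minimalPrimes, (∃ m, 0 < m ∧ ∀ f ∈ P, (cmp Φ)^[m] f ∈ P) →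
      ∀ f ∈ P, (cmp Φ)^[Q] f ∈ P := by
    intro P hP h
    obtain ⟨r, hr⟩ := Finset.dvd_prod_of_mem mP (hfin.mem_toFinset.2 hP)
    rw [hQdef, hr, mul_assoc]
    exact closed_mul (hcl P h) _
  suffices hkey : ∃ n0, ∀ a ∈ Wset S N, ∀ n, n0 ≤ n →
      ((∀ f ∈ I, eval (orb Φ a n) f = 0) ↔ ∀ f ∈ I, eval (orb Φ a (n + Q)) f = 0) by
    obtain ⟨n0, h⟩ := hkey
    exact ⟨n0, Q, hQ, h⟩
  by_contra hcon
  have hcon' : ∀ j : ℕ, ∃ a n, a ∈ Wset S N ∧ j ≤ n ∧
      ¬ ((∀ f ∈ I, eval (orb Φ a n) f = 0) ↔ ∀ f ∈ I, eval (orb Φ a (n + Q)) f = 0) := by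
    intro j
    by_contra h
    refine hcon ⟨j, fun a ha n hn => ?_⟩
    by_contra h'
    exact h ⟨a, n, ha, hn, h'⟩
  choose α τ hα hτ hnot using hcon'
  obtain ⟨U, hUdef⟩ : ∃ U : Ultrafilter ℕ, U = hyperfilter ℕ := ⟨_, rfl⟩
  have hUtop : (U : Filter ℕ) ≤ atTop := by
    rw [hUdef, ← Nat.cofinite_eq_atTop]
    exact hyperfilter_le_cofinite
  have hτtop : Tendsto τ (U : Filter ℕ) atTop :=
    (tendsto_atTop_mono hτ tendsto_id).mono_left hUtop
  -- points with a finite orbit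
  have hfinorb : ∀ a ∈ Wset S N, ¬ Function.Injective (orb Φ a) →
      ¬ ∀ᶠ n in (U : Filter ℕ), α n = a := by
    intro a ha hinj h
    obtain ⟨n, hn, hn'⟩ := (h.and (hτtop.eventually_ge_atTop n1)).exists
    apply hnot n
    rw [hn]
    have h1 := hpre a ha hinj (τ n) hn' (∏ P ∈ hfin.toFinset, mP P)
    rw [mul_comm, ← hQdef] at h1
    rw [h1]
  by_cases hA : ∀ᶠ n in (U : Filter ℕ), ∀ f ∈ I, eval (orb Φ (α n) (τ n)) f = 0
  · rcases core hd hΦ hSΦ hα hI hcrit hτtop hA with ⟨a, ha, hinj, h⟩ | ⟨hmin, ⟨m, hm, hc⟩, -⟩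
    · exact hfinorb a ha hinj h
    · have hst := hclQ _ hmin ⟨m, hm, fun f hf => by
        have h1 := cmp_iter_mem' (Φ := Φ) (α := α) hτtop m 0 f
        rw [hc 0] at h1
        exact h1.2 hf⟩
      obtain ⟨n, hn, hn'⟩ := (hA.and (ev_all (le_refl (van U (lev Φ α τ 0))))).exists
      refine hnot n ⟨fun _ f hf => ?_, fun _ => hn⟩
      have h1 := hn' _ (hst f (hmin.1.2 hf))
      rw [eval_cmp_iter] at h1
      rw [orb_add]
      exact h1
  · have hA' : ∀ᶠ n in (U : Filter ℕ), ¬ ∀ f ∈ I, eval (orb Φ (α n) (τ n)) f = 0 :=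
      Ultrafilter.eventually_not.2 hA
    have hB : ∀ᶠ n in (U : Filter ℕ), ∀ f ∈ I, eval (orb Φ (α n) (τ n + Q)) f = 0 := by
      filter_upwards [hA'] with n hn
      by_contra h
      exact hnot n ⟨fun h' => absurd h' hn, fun h' => absurd h' h⟩
    have hτQ : Tendsto (fun n => τ n + Q) (U : Filter ℕ) atTop :=
      tendsto_atTop_mono (fun n => Nat.le_add_right _ _) hτtop
    rcases core hd hΦ hSΦ hα hI hcrit hτQ hB with ⟨a, ha, hinj, h⟩ | ⟨hmin, ⟨m, hm, hc⟩, hpr⟩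
    · exact hfinorb a ha hinj h
    · have hst := hclQ _ hmin ⟨m, hm, fun f hf => by
        have h1 := cmp_iter_mem' (Φ := Φ) (α := α) hτQ m 0 f
        rw [hc 0] at h1
        exact h1.2 hf⟩
      -- the level `Q` is the level `0`
      have hmul : ∀ k l, van U (lev Φ α (fun n => τ n + Q) (l + m * k)) =
          van U (lev Φ α (fun n => τ n + Q) l) := by
        intro k
        induction k with
        | zero => intro l; rfl
        | succ k ih => intro l; rw [Nat.mul_succ, ← add_assoc, hc, ih]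
      have hle : van U (lev Φ α (fun n => τ n + Q) 0) ≤ van U (lev Φ α (fun n => τ n + Q) Q) := by
        intro f hf
        have h1 := cmp_iter_mem' (Φ := Φ) (α := α) hτQ (Q * (m - 1)) Q f
        have e1 : Q + Q * (m - 1) = 0 + m * Q := by
          obtain ⟨m', rfl⟩ : ∃ m', m = m' + 1 := ⟨m - 1, by omega⟩
          rw [Nat.add_sub_cancel]
          ring
        rw [e1, hmul Q 0] at h1
        exact h1.1 (closed_mul hst (m - 1) f hf)
      have heq := hpr Q _ hmin.1.1 hle (hI _ hmin.1.1 hmin.1.2)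
      obtain ⟨n, hn, hn'⟩ := (hA'.and (ev_all (le_refl (van U (lev Φ α (fun n => τ n + Q) Q))))).exists
      apply hn
      intro f hf
      have h1 : f ∈ van U (lev Φ α (fun n => τ n + Q) Q) := by
        rw [← heq]
        exact hmin.1.2 hf
      have h2 := hn' f h1
      unfold lev at h2
      simp only [Nat.add_sub_cancel] at h2
      exact h2

end main

end Pool.Agent.Helper61.UC
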