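import Pool.Agent.Helper52.RP.Main
import Pool.Agent.Helper61.DC.Main

/-!
# Curves and maps regular at infinity, uniformly in the orbit: sequences of pairs (point, time)
-/

set_option autoImplicit false

namespace Pool.Agent.Helper61.UC

open MvPolynomial Filter Topology NumberField
open Pool.Agent.Helper64.Vojta (Pl nv above mem_above)
open Pool.Agent.Helper26.RC
open Pool.Agent.Helper52.RP (MultLt)

section lev

variable {K : Type*} [Field K] {N : ℕ}

/-- the points of the orbits, `l` steps before the return time -/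
noncomputable def lev (Φ : Fin N → MvPolynomial (Fin N) K) (α : ℕ → Fin N → K) (τ : ℕ → ℕ) (l n : ℕ) :
    Fin N → K :=
  (pmap Φ)^[τ n - l] (α n)

variable {Φ : Fin N → MvPolynomial (Fin N) K} {α : ℕ → Fin N → K} {τ : ℕ → ℕ} {U : Ultrafilter ℕ}

theorem lev_iter (hτ : Tendsto τ (U : Filter ℕ) atTop) (l k : ℕ) :
    ∀ᶠ n in (U : Filter ℕ), lev Φ α τ l n = (pmap Φ)^[k] (lev Φ α τ (l + k) n) := by
  filter_upwards [hτ.eventually_ge_atTop (l + k)] with n hn
  unfold lev
  rw [← Function.iterate_add_apply]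
  congr 1
  omega

theorem lev_step (hτ : Tendsto τ (U : Filter ℕ) atTop) (l : ℕ) :
    ∀ᶠ n in (U : Filter ℕ), lev Φ α τ l n = pmap Φ (lev Φ α τ (l + 1) n) :=
  lev_iter hτ l 1

theorem cmp_mem' (hτ : Tendsto τ (U : Filter ℕ) atTop) (l : ℕ) (f : MvPolynomial (Fin N) K) :
    cmp Φ f ∈ van U (lev Φ α τ (l + 1)) ↔ f ∈ van U (lev Φ α τ l) := by
  rw [mem_van, mem_van]
  constructor
  · intro h
    filter_upwards [h, lev_step (Φ := Φ) (α := α) hτ l] with n h1 h2
    rw [eval_cmp, ← h2] at h1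
    exact h1
  · intro h
    filter_upwards [h, lev_step (Φ := Φ) (α := α) hτ l] with n h1 h2
    rw [eval_cmp, ← h2]
    exact h1

theorem cmp_iter_mem' (hτ : Tendsto τ (U : Filter ℕ) atTop) (k l : ℕ) (f : MvPolynomial (Fin N) K) :
    (cmp Φ)^[k] f ∈ van U (lev Φ α τ (l + k)) ↔ f ∈ van U (lev Φ α τ l) := by
  induction k generalizing f with
  | zero => rfl
  | succ k ih =>
    rw [Function.iterate_succ_apply', ← add_assoc, cmp_mem' hτ, ih]

theorem lev_ne (hτ : Tendsto τ (U : Filter ℕ) atTop)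
    (hne : ∀ c, ∀ᶠ n in (U : Filter ℕ), lev Φ α τ 0 n ≠ c) (l : ℕ) (c : Fin N → K) :
    ∀ᶠ n in (U : Filter ℕ), lev Φ α τ l n ≠ c := by
  filter_upwards [hne ((pmap Φ)^[l] c), lev_iter (Φ := Φ) (α := α) hτ 0 l] with n h1 h2 h3
  rw [zero_add] at h2
  rw [h2, h3] at h1
  exact h1 rfl

end lev

section grow

variable {K : Type*} [Field K] {N d : ℕ}

theorem sz_iter {Φ : Fin N → MvPolynomial (Fin N) K} {μ : AbsoluteValue K ℝ} {C : ℝ}
    (hC : ∀ x, |Real.log (sz μ (pmap Φ x)) - d * Real.log (sz μ x)| ≤ C) (l : ℕ) :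
    ∃ C' : ℝ, ∀ x, |Real.log (sz μ ((pmap Φ)^[l] x)) - d ^ l * Real.log (sz μ x)| ≤ C' := by
  induction l with
  | zero => exact ⟨0, fun x => by simp⟩
  | succ l ih =>
    obtain ⟨C', hC'⟩ := ih
    refine ⟨C + d * C', fun x => ?_⟩
    rw [Function.iterate_succ_apply']
    have h1 := hC ((pmap Φ)^[l] x)
    have h2 := hC' x
    have h3 : (0 : ℝ) ≤ d := Nat.cast_nonneg _
    have e : Real.log (sz μ (pmap Φ ((pmap Φ)^[l] x))) - d ^ (l + 1) * Real.log (sz μ x) =
        (Real.log (sz μ (pmap Φ ((pmap Φ)^[l] x))) - d * Real.log (sz μ ((pmap Φ)^[l] x))) +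
        d * (Real.log (sz μ ((pmap Φ)^[l] x)) - d ^ l * Real.log (sz μ x)) := by ring
    rw [e]
    refine (abs_add_le _ _).trans (add_le_add h1 ?_)
    rw [abs_mul, abs_of_nonneg h3]
    exact mul_le_mul_of_nonneg_left h2 h3

theorem log_sz_nonneg (μ : AbsoluteValue K ℝ) (x : Fin N → K) : 0 ≤ Real.log (sz μ x) :=
  Real.log_nonneg (one_le_sz _ _)

end grow

section fin

variable {K : Type*} [Field K] [NumberField K] {N : ℕ}

/-- Northcott's theorem for integral points -/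
theorem finite_bdd (S : Finset (Pl K)) (B : ℝ) :
    {x : Fin N → K | (∀ v, v ∉ S → ∀ i, nv v (x i) ≤ 1) ∧
      ∀ v ∈ S, Real.log (sz (av v) x) ≤ B}.Finite := by
  by_contra hcon
  have hinf : {x : Fin N → K | (∀ v, v ∉ S → ∀ i, nv v (x i) ≤ 1) ∧
      ∀ v ∈ S, Real.log (sz (av v) x) ≤ B}.Infinite := hcon
  let e := hinf.natEmbedding
  obtain ⟨v, hv, h⟩ := unbounded (x := fun n => (e n : Fin N → K))
    (fun a b hab => e.injective (Subtype.ext hab)) (S := S) (fun n => (e n).2.1)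
  obtain ⟨n, hn⟩ := h B
  exact absurd ((e n).2.2 v hv) (not_le.2 hn)

end fin

section rates

variable {K : Type*} [Field K] [NumberField K] {N d : ℕ} {Φ : Fin N → MvPolynomial (Fin N) K}
  {α : ℕ → Fin N → K} {τ : ℕ → ℕ} {U : Ultrafilter ℕ}

theorem nv_iter {v : Pl K} (hΦ : ∀ x : Fin N → K, (∀ i, nv v (x i) ≤ 1) → ∀ i, nv v (pmap Φ x i) ≤ 1)
    (x : Fin N → K) (hx : ∀ i, nv v (x i) ≤ 1) (n : ℕ) (i : Fin N) :
    nv v ((pmap Φ)^[n] x i) ≤ 1 := by
  induction n generalizing i with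
  | zero => exact hx i
  | succ n ih =>
    rw [Function.iterate_succ_apply']
    exact hΦ _ ih i

theorem exists_rates {Ω : Type*} [Field Ω] [Algebra K Ω] [IsAlgClosed Ω] (hd : 2 ≤ d)
    (h : Reg Ω d Φ) (hτ : Tendsto τ (U : Filter ℕ) atTop)
    (hne : ∀ c, ∀ᶠ n in (U : Filter ℕ), lev Φ α τ 0 n ≠ c) {S : Finset (Pl K)}
    (hS : ∀ n v, v ∉ S → ∀ i, nv v (lev Φ α τ 0 n i) ≤ 1) :
    ∃ (t : ℕ → ℝ) (G : Pl K → ℝ), Tendsto t (U : Filter ℕ) atTop ∧ (∀ v, 0 ≤ G v) ∧
      (∀ v, v ∉ S → G v = 0) ∧ (∃ v ∈ S, 0 < G v) ∧ (∀ n, 0 < t n) ∧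
      ∀ l, ∀ v ∈ S, Tendsto (fun n => Real.log (sz (av v) (lev Φ α τ l n)) / t n) (U : Filter ℕ)
        (𝓝 (G v / d ^ l)) := by
  classical
  obtain ⟨t, ht⟩ : ∃ t : ℕ → ℝ, t = fun n => 1 + ∑ v ∈ S, Real.log (sz (av v) (lev Φ α τ 0 n)) :=
    ⟨_, rfl⟩
  have ht1 : ∀ n, 1 ≤ t n := by
    intro n
    rw [ht]
    have : 0 ≤ ∑ v ∈ S, Real.log (sz (av v) (lev Φ α τ 0 n)) :=
      Finset.sum_nonneg fun v _ => log_sz_nonneg _ _
    linarith
  have htop : Tendsto t (U : Filter ℕ) atTop := by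
    rw [tendsto_atTop]
    intro B
    by_contra hcon
    rw [Ultrafilter.eventually_not.symm] at hcon
    have hfin := finite_bdd (N := N) S B
    have hmem : ∀ᶠ n in (U : Filter ℕ), lev Φ α τ 0 n ∈ {x : Fin N → K |
        (∀ v, v ∉ S → ∀ i, nv v (x i) ≤ 1) ∧ ∀ v ∈ S, Real.log (sz (av v) x) ≤ B} := by
      filter_upwards [hcon] with n hn
      rw [not_le] at hn
      refine ⟨fun v hv i => hS n v hv i, fun v hv => ?_⟩
      have h1 : Real.log (sz (av v) (lev Φ α τ 0 n)) ≤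
          ∑ v ∈ S, Real.log (sz (av v) (lev Φ α τ 0 n)) :=
        Finset.single_le_sum (f := fun v => Real.log (sz (av v) (lev Φ α τ 0 n)))
          (fun v _ => log_sz_nonneg _ _) hv
      rw [ht] at hn
      simp only at hn
      linarith
    obtain ⟨c, -, h2⟩ := Ultrafilter.eq_pure_of_finite_mem hfin
      (show _ ∈ U.map (lev Φ α τ 0) from hmem)
    have h3 : ({c} : Set (Fin N → K)) ∈ U.map (lev Φ α τ 0) := by
      rw [h2]
      exact Ultrafilter.mem_pure.2 rfl
    obtain ⟨n, h4, h5⟩ := ((hne c).and (show ∀ᶠ n in (U : Filter ℕ), lev Φ α τ 0 n = c from h3)).exists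
    exact h4 h5
  have hr : ∀ v ∈ S, ∃ g : ℝ, 0 ≤ g ∧
      Tendsto (fun n => Real.log (sz (av v) (lev Φ α τ 0 n)) / t n) (U : Filter ℕ) (𝓝 g) := by
    intro v hv
    have hI : ∀ n, Real.log (sz (av v) (lev Φ α τ 0 n)) / t n ∈ Set.Icc (0 : ℝ) 1 := by
      intro n
      have h0 := ht1 n
      refine ⟨div_nonneg (log_sz_nonneg _ _) (by linarith), ?_⟩
      rw [div_le_one (by linarith), ht]
      have h1 : Real.log (sz (av v) (lev Φ α τ 0 n)) ≤
          ∑ v ∈ S, Real.log (sz (av v) (lev Φ α τ 0 n)) :=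
        Finset.single_le_sum (f := fun v => Real.log (sz (av v) (lev Φ α τ 0 n)))
          (fun v _ => log_sz_nonneg _ _) hv
      linarith
    obtain ⟨g, hg, hle⟩ := isCompact_Icc.ultrafilter_le_nhds
      (U.map fun n => Real.log (sz (av v) (lev Φ α τ 0 n)) / t n)
      (Filter.le_principal_iff.2 (Filter.mem_map.2 (Filter.univ_mem' hI)))
    exact ⟨g, hg.1, hle⟩
  choose! g hg0 hg using hr
  obtain ⟨G, hG⟩ : ∃ G : Pl K → ℝ, G = fun v => if v ∈ S then g v else 0 := ⟨_, rfl⟩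
  have hGS : ∀ v ∈ S, G v = g v := fun v hv => by rw [hG]; simp only [if_pos hv]
  refine ⟨t, G, htop, fun v => ?_, fun v hv => by rw [hG]; simp only [if_neg hv], ?_,
    fun n => by linarith [ht1 n], fun l v hv => ?_⟩
  · rw [hG]
    simp only
    split_ifs with hv
    · exact hg0 v hv
    · exact le_rfl
  · by_contra hcon
    push Not at hcon
    have h1 : Tendsto (fun n => ∑ v ∈ S, Real.log (sz (av v) (lev Φ α τ 0 n)) / t n) (U : Filter ℕ)
        (𝓝 (∑ v ∈ S, g v)) := tendsto_finsetSum _ fun v hv => hg v hv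
    have h2 : Tendsto (fun n => ∑ v ∈ S, Real.log (sz (av v) (lev Φ α τ 0 n)) / t n) (U : Filter ℕ)
        (𝓝 1) := by
      have h3 : (fun n => ∑ v ∈ S, Real.log (sz (av v) (lev Φ α τ 0 n)) / t n) =
          fun n => 1 - (t n)⁻¹ := by
        funext n
        have h4 := ht1 n
        rw [← Finset.sum_div]
        have h5 : ∑ v ∈ S, Real.log (sz (av v) (lev Φ α τ 0 n)) = t n - 1 := by
          rw [ht]
          ring
        rw [h5]
        field_simp
      rw [h3]
      have h4 := (tendsto_inv_atTop_zero.comp htop).const_sub 1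
      rw [sub_zero] at h4
      exact h4
    have h3 := tendsto_nhds_unique h1 h2
    have h4 : ∑ v ∈ S, g v ≤ 0 := Finset.sum_nonpos fun v hv => by
      have := hcon v hv
      rwa [hGS v hv] at this
    linarith
  · rw [hGS v hv]
    obtain ⟨e, Q, hQ, hc⟩ := exists_cert h
    obtain ⟨C, hC⟩ := sz_pmap (by omega) h.1 hQ hc (av v)
    obtain ⟨C', hC'⟩ := sz_iter hC l
    have hdp : (0 : ℝ) < (d : ℝ) ^ l := pow_pos (by exact_mod_cast (by omega : 0 < d)) l
    have h1 := (hg v hv).div_const ((d : ℝ) ^ l)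
    have hz : Tendsto (fun n => C' / (d : ℝ) ^ l / t n) (U : Filter ℕ) (𝓝 0) :=
      htop.const_div_atTop _
    have h2 : Tendsto (fun n => Real.log (sz (av v) (lev Φ α τ l n)) / t n -
        Real.log (sz (av v) (lev Φ α τ 0 n)) / t n / (d : ℝ) ^ l) (U : Filter ℕ) (𝓝 0) := by
      rw [tendsto_zero_iff_norm_tendsto_zero]
      refine squeeze_zero' (Eventually.of_forall fun n => norm_nonneg _) ?_ hz
      filter_upwards [lev_iter (Φ := Φ) (α := α) hτ 0 l] with n hn
      rw [zero_add] at hn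
      have h3 := hC' (lev Φ α τ l n)
      rw [← hn] at h3
      have h4 := ht1 n
      have h5 : Real.log (sz (av v) (lev Φ α τ l n)) / t n -
          Real.log (sz (av v) (lev Φ α τ 0 n)) / t n / (d : ℝ) ^ l =
          -(Real.log (sz (av v) (lev Φ α τ 0 n)) - d ^ l * Real.log (sz (av v) (lev Φ α τ l n))) /
            (d : ℝ) ^ l / t n := by
        field_simp
        ring
      rw [h5, Real.norm_eq_abs, abs_div, abs_div, abs_neg, abs_of_pos hdp,
        abs_of_pos (by linarith : 0 < t n)]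
      exact div_le_div_of_nonneg_right (div_le_div_of_nonneg_right h3 hdp.le) (by linarith)
    have h3 := h2.add h1
    rw [zero_add] at h3
    refine h3.congr fun n => ?_
    ring

end rates

end Pool.Agent.Helper61.UC
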