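import Pool.Agent.Helper61.UC.Lev

/-!
# Curves and maps regular at infinity, uniformly in the orbit: the curve is periodic
-/

set_option autoImplicit false

namespace Pool.Agent.Helper61.UC

open MvPolynomial Filter Topology NumberField
open Pool.Agent.Helper64.Vojta (Pl nv above mem_above)
open Pool.Agent.Helper26.RC
open Pool.Agent.Helper52.RP

variable {K Ω : Type*} [Field K] [NumberField K] [Field Ω] [Algebra K Ω] {N d : ℕ}

omit [NumberField K] in
theorem trdeg_lev [IsAlgClosed Ω] (hd : 2 ≤ d) {Φ : Fin N → MvPolynomial (Fin N) K}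
    (hΦ : Reg Ω d Φ) {α : ℕ → Fin N → K} {τ : ℕ → ℕ} {I : Ideal (MvPolynomial (Fin N) K)}
    (hI : ∀ P : Ideal (MvPolynomial (Fin N) K), P.IsPrime → I ≤ P →
      Algebra.trdeg K (MvPolynomial (Fin N) K ⧸ P) ≤ 1)
    {U : Ultrafilter ℕ} (hτ : Tendsto τ (U : Filter ℕ) atTop)
    (hR : ∀ᶠ n in (U : Filter ℕ), ∀ f ∈ I, eval (lev Φ α τ 0 n) f = 0) (l : ℕ) :
    Algebra.trdeg K (MvPolynomial (Fin N) K ⧸ van U (lev Φ α τ l)) ≤ 1 := by
  induction l with
  | zero =>
    refine hI _ (van_prime _ _) fun f hf => ?_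
    rw [mem_van]
    filter_upwards [hR] with n hn
    exact hn f hf
  | succ l ih => exact trdeg_step (Ω := Ω) (by omega) hΦ (lev_step hτ l) ih

omit [NumberField K] in
/-- a backward orbit of closed sets which returns infinitely often is periodic -/
theorem cyc {Φ : Fin N → MvPolynomial (Fin N) K} {c : ℕ → Ideal (MvPolynomial (Fin N) K)}
    (hc : ∀ k l f, (cmp Φ)^[k] f ∈ c (l + k) ↔ f ∈ c l) {P : Ideal (MvPolynomial (Fin N) K)}
    (hP : {a | c a = P}.Infinite) : ∃ m, 0 < m ∧ ∀ l, c (l + m) = c l := by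
  obtain ⟨a, ha⟩ := hP.nonempty
  obtain ⟨b, hb, hab⟩ := hP.exists_gt a
  obtain ⟨m, rfl⟩ := Nat.exists_eq_add_of_lt hab
  rw [add_assoc] at hb
  refine ⟨m + 1, by omega, fun l => ?_⟩
  obtain ⟨e, he, hle⟩ := hP.exists_gt (l + (m + 1))
  obtain ⟨s, rfl⟩ := Nat.exists_eq_add_of_le hle.le
  ext f
  have h1 := hc s (l + (m + 1)) f
  have h2 := hc ((m + 1) + s) l f
  rw [← add_assoc, Function.iterate_add_apply] at h2
  have h3 := hc (m + 1) a ((cmp Φ)^[s] f)
  have ha' : c a = P := ha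
  have hb' : c (a + (m + 1)) = P := hb
  have he' : c (l + (m + 1) + s) = P := he
  rw [he'] at h1 h2
  rw [ha', hb'] at h3
  rw [← h1, ← h2, h3]

theorem main_lev [IsAlgClosure K Ω] (hd : 2 ≤ d) {Φ : Fin N → MvPolynomial (Fin N) K}
    (hΦ : Reg Ω d Φ) {α : ℕ → Fin N → K} {τ : ℕ → ℕ} {S : Finset (Pl K)}
    (hSΦ : ∀ v, v ∉ S → ∀ x : Fin N → K, (∀ i, nv v (x i) ≤ 1) → ∀ i, nv v (pmap Φ x i) ≤ 1)
    (hSα : ∀ n v, v ∉ S → ∀ i, nv v (α n i) ≤ 1)
    {I : Ideal (MvPolynomial (Fin N) K)}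
    (hI : ∀ P : Ideal (MvPolynomial (Fin N) K), P.IsPrime → I ≤ P →
      Algebra.trdeg K (MvPolynomial (Fin N) K ⧸ P) ≤ 1) (hcrit : MultLt Ω d Φ I)
    {U : Ultrafilter ℕ} (hτ : Tendsto τ (U : Filter ℕ) atTop)
    (hne : ∀ c, ∀ᶠ n in (U : Filter ℕ), lev Φ α τ 0 n ≠ c)
    (hR : ∀ᶠ n in (U : Filter ℕ), ∀ f ∈ I, eval (lev Φ α τ 0 n) f = 0) :
    ∃ m, 0 < m ∧ ∀ l, van U (lev Φ α τ (l + m)) = van U (lev Φ α τ l) := by
  classical
  have : IsAlgClosed Ω := IsAlgClosure.isAlgClosed K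
  have hd1 : 1 ≤ d := by omega
  have hdR : (0 : ℝ) < d := by exact_mod_cast (by omega : 0 < d)
  -- growth of the local sizes
  have hSb : ∀ l n, ∀ v, v ∉ S → ∀ i, nv v (lev Φ α τ l n i) ≤ 1 := fun l n v hv i =>
    nv_iter (hSΦ v hv) (α n) (hSα n v hv) _ i
  obtain ⟨t, G, ht, hG0, hGS, hpos, htp, hg⟩ := exists_rates (Ω := Ω) hd hΦ hτ hne (S := S) (hSb 0)
  let g : ℕ → Pl K → ℝ := fun l v => G v / d ^ l
  have hgpos : ∀ l v, 0 < G v → 0 < g l v := fun l v h => div_pos h (pow_pos hdR l)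
  have hgpos' : ∀ l v, 0 < g l v → 0 < G v := by
    intro l v h
    by_contra hcon
    have h1 : G v = 0 := le_antisymm (not_lt.1 hcon) (hG0 v)
    simp [g, h1] at h
  have htd := fun l => trdeg_lev (Ω := Ω) hd hΦ hI hτ hR l
  -- absolute values of the closure
  choose μ hμ using fun v : Pl K => exists_ext (Ω := Ω) v
  have hgrow : ∀ l v, 0 < G v →
      Tendsto (fun n => Real.log (sz (μ v) (emb Ω (lev Φ α τ l) n))) (U : Filter ℕ) atTop := by
    intro l v hv
    have hvS : v ∈ S := by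
      by_contra hvS
      rw [hGS v hvS] at hv
      exact lt_irrefl _ hv
    have h1 := (hg l v hvS).pos_mul_atTop (hgpos l v hv) ht
    refine h1.congr fun n => ?_
    have h2 : t n ≠ 0 := (htp n).ne'
    rw [sz_emb (hμ v)]
    field_simp
  have hcv : ∀ l v, 0 < G v → Cv (μ v) U (emb Ω (lev Φ α τ l)) := fun l v hv =>
    ⟨hgrow l v hv, trdeg_emb (htd l)⟩
  have hdir : ∀ l v, ∃ q : Fin N → Ω, 0 < G v → Dir (μ v) U (emb Ω (lev Φ α τ l)) q := by
    intro l v
    by_cases h : 0 < G v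
    · obtain ⟨q, hq⟩ := dir_exists (hcv l v h)
      exact ⟨q, fun _ => hq⟩
    · exact ⟨0, fun h' => absurd h' h⟩
  choose qq hqq using hdir
  have hstepv : ∀ v, 0 < G v → ∀ l, ∃ c : Ω, c ≠ 0 ∧ infMap d Φ (qq (l + 1) v) = c • qq l v :=
    fun v hv l => dir_map hΦ (hgrow l v hv) (hgrow (l + 1) v hv) (lev_step (Φ := Φ) (α := α) hτ l) (hqq l v hv)
      (hqq (l + 1) v hv)
  -- Part A
  have hA : ∀ l, ∃ v ∈ S, 0 < G v ∧ ∀ σ : Fin 3 → (Ω ≃ₐ[K] Ω),
      ¬ Function.Injective fun (i : Fin 3) (j : Fin N) => σ i (qq l v j) := by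
    intro l
    obtain ⟨v, hv, hv', h⟩ := partA U (lev Φ α τ l) S (hSb l) t ht (g l) (fun v hv => hg l v hv)
      (by obtain ⟨v, h1, h2⟩ := hpos; exact ⟨v, h1, hgpos l v h2⟩) μ (fun v _ => hμ v)
      (fun v _ h => hcv l v (hgpos' l v h)) (qq l) (fun v _ h => hqq l v (hgpos' l v h))
    exact ⟨v, hv, hgpos' l v hv', h⟩
  obtain ⟨v, hvS, hv, hfew⟩ : ∃ v ∈ S, 0 < G v ∧ ∀ l, ∀ σ : Fin 3 → (Ω ≃ₐ[K] Ω),
      ¬ Function.Injective fun (i : Fin 3) (j : Fin N) => σ i (qq l v j) := by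
    by_contra hcon
    push Not at hcon
    have h1 : ∀ v : Pl K, ∃ l0, v ∈ S → 0 < G v → ∀ l, l0 ≤ l → ∃ σ : Fin 3 → (Ω ≃ₐ[K] Ω),
        Function.Injective fun (i : Fin 3) (j : Fin N) => σ i (qq l v j) := by
      intro v
      by_cases h : v ∈ S ∧ 0 < G v
      · obtain ⟨l0, σ, hσ⟩ := hcon v h.1 h.2
        refine ⟨l0, fun _ _ l hl => ⟨σ, ?_⟩⟩
        induction l, hl using Nat.le_induction with
        | base => exact hσ
        | succ l hl ih => exact few_mono (hqq l v h.2).nrm (hstepv v h.2 l) ih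
      · exact ⟨0, fun h1 h2 => absurd ⟨h1, h2⟩ h⟩
    choose l0 hl0 using h1
    obtain ⟨v, hv, hv', h⟩ := hA (S.sup l0)
    obtain ⟨σ, hσ⟩ := hl0 v hv hv' (S.sup l0) (Finset.le_sup hv)
    exact h σ hσ
  -- the periodic cycle at infinity
  let q : ℕ → Fin N → Ω := fun l => qq l v
  have hdirq : ∀ l, Dir (μ v) U (emb Ω (lev Φ α τ l)) (q l) := fun l => hqq l v hv
  have hn : ∀ l, Nrm (q l) := fun l => (hdirq l).nrm
  have hstep : ∀ l, ∃ c : Ω, c ≠ 0 ∧ infMap d Φ (q (l + 1)) = c • q l := hstepv v hv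
  obtain ⟨F, hFfin, hF2, hF⟩ := few_field hn hstep hfew
  obtain ⟨p, hp, hper⟩ := per_of_heights hd hΦ hn hstep F hF
  choose c hc hcq using hstep
  have hcper : ∀ l, c (l + p) = c l := by
    intro l
    have h1 := hcq (l + p)
    rw [show l + p + 1 = (l + 1) + p by ring, hper, hper, hcq] at h1
    obtain ⟨i, hi, -⟩ := hn l
    have h2 := congrFun h1 i
    rw [Pi.smul_apply, Pi.smul_apply, hi, smul_eq_mul, smul_eq_mul, mul_one, mul_one] at h2
    exact h2.symm
  have hcF : ∀ l, c l ∈ F := by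
    intro l
    obtain ⟨i, hi, -⟩ := hn l
    have h1 := congrFun (hcq l) i
    rw [Pi.smul_apply, hi, smul_eq_mul, mul_one] at h1
    rw [← h1]
    exact aeval_mem F (hF (l + 1)) _
  -- the point over the quadratic field
  let z : Fin N → F := fun j => ⟨q 0 j, hF 0 j⟩
  have hzq : (fun j => algebraMap F Ω (z j)) = q 0 := rfl
  have hinf : ∀ f ∈ I, aeval z (homogeneousComponent f.totalDegree f) = 0 := by
    intro f hf
    have h1 : aeval (q 0) (homogeneousComponent f.totalDegree f) = 0 := by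
      refine at_inf (hgrow 0 v hv) (hdirq 0) ?_
      rw [mem_van]
      filter_upwards [hR] with n hn
      exact hn f hf
    have h2 := MvPolynomial.aeval_algebraMap_apply Ω z (homogeneousComponent f.totalDegree f)
    have h3 : algebraMap F Ω (aeval z (homogeneousComponent f.totalDegree f)) = 0 := by
      rw [← h2]
      exact h1
    rwa [map_eq_zero] at h3
  have hz0 : z ≠ 0 := by
    intro h0
    refine nrm_ne_zero (hn 0) ?_
    rw [← hzq, h0]
    funext j
    exact map_zero _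
  have hstep' : ∀ l, ∃ c : Ω, c ≠ 0 ∧ infMap d Φ (q (l + 1)) = c • q l := fun l =>
    ⟨c l, hc l, hcq l⟩
  obtain ⟨i0, hi0, hlt0⟩ := hn 0
  -- eigenvalues over the quadratic field
  have heig : ∀ (k : ℕ) (c' : Ω), c' ≠ 0 → (infMap d Φ)^[k] (q 0) = c' • q 0 →
      ∃ c : F, c ≠ 0 ∧ ∀ i, eval z (Gk d (bc F Φ) k i) = c * z i := by
    intro k c' hc' h
    have h1 : ∀ i, algebraMap F Ω (eval z (Gk d (bc F Φ) k i)) = c' * q 0 i := by
      intro i
      rw [eval_Gk, hzq, h]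
      rfl
    have h2 : algebraMap F Ω (eval z (Gk d (bc F Φ) k i0)) = c' := by
      rw [h1, hi0, mul_one]
    refine ⟨eval z (Gk d (bc F Φ) k i0), fun h0 => hc' ?_, fun i => ?_⟩
    · rw [← h2, h0, map_zero]
    · refine (algebraMap F Ω).injective ?_
      rw [map_mul, h2, h1]
      rfl
  obtain ⟨k, hk, ⟨κ, hκ, hqκ⟩, hmult⟩ := hcrit F hFfin hF2 z hz0 hinf (by
    obtain ⟨c', hc', h⟩ := iter_back hstep' p 0
    rw [hper 0] at h
    exact ⟨p, hp, heig p c' hc' h⟩)
  -- the sequence of the limit points is periodic with the period `k` at the multiples of `k`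
  have hpermul : ∀ k, q (k * p) = q 0 := by
    intro k
    induction k with
    | zero => rw [zero_mul]
    | succ k ih => rw [Nat.succ_mul, hper, ih]
  have hk0 : (infMap d Φ)^[k] (q 0) = (algebraMap F Ω κ) • q 0 := by
    funext i
    rw [← hzq, ← eval_Gk, hqκ, map_mul]
    rfl
  have hκ' : algebraMap F Ω κ ≠ 0 := by
    rw [Ne, map_eq_zero]
    exact hκ
  have hkr : ∀ r : ℕ, ∃ c : Ω, c ≠ 0 ∧ (infMap d Φ)^[k * r] (q 0) = c • q 0 := by
    intro r
    induction r with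
    | zero => exact ⟨1, one_ne_zero, by simp⟩
    | succ r ih =>
      obtain ⟨c', hc', h⟩ := ih
      refine ⟨(algebraMap F Ω κ) ^ d ^ (k * r) * c', mul_ne_zero (pow_ne_zero _ hκ') hc', ?_⟩
      rw [Nat.mul_succ, Function.iterate_add_apply, hk0, infMap_iter_smul, h, smul_smul]
  have hqk : ∀ i, q (k * i) = q 0 := by
    intro i
    obtain ⟨c1, hc1, h1⟩ := iter_back hstep' (k * (i * (p - 1))) (k * i)
    have h2 : k * i + k * (i * (p - 1)) = (k * i) * p := by
      obtain ⟨p', rfl⟩ : ∃ p', p = p' + 1 := ⟨p - 1, by omega⟩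
      rw [Nat.add_sub_cancel]
      ring
    rw [h2, hpermul] at h1
    obtain ⟨c2, hc2, h3⟩ := hkr (i * (p - 1))
    rw [h3] at h1
    -- two proportional normalised vectors are equal
    obtain ⟨i1, hi1, hlt1⟩ := hn (k * i)
    have h4 : ∀ l, c2 * q 0 l = c1 * q (k * i) l := fun l => congrFun h1 l
    have h5 : i1 = i0 := by
      rcases lt_trichotomy i1 i0 with h6 | h6 | h6
      · have h7 := h4 i1
        rw [hlt0 i1 h6, hi1, mul_zero, mul_one] at h7
        exact absurd h7.symm hc1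
      · exact h6
      · have h7 := h4 i0
        rw [hlt1 i0 h6, hi0, mul_zero, mul_one] at h7
        exact absurd h7 hc2
    subst h5
    have h6 : c2 = c1 := by
      have h7 := h4 i1
      rwa [hi0, hi1, mul_one, mul_one] at h7
    funext l
    have h7 := h4 l
    rw [h6] at h7
    exact (mul_left_cancel₀ hc1 h7).symm
  -- the sequences of the levels `k i`
  have hx : ∀ i, ∀ᶠ n in (U : Filter ℕ),
      lev Φ α τ (k * i) n = (pmap Φ)^[k] (lev Φ α τ (k * (i + 1)) n) := by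
    intro i
    have h1 := lev_iter (Φ := Φ) (α := α) hτ (k * i) k
    rwa [show k * i + k = k * (i + 1) by ring] at h1
  obtain ⟨J, j, hJ, hJle⟩ := partB hd hΦ.1 F hF2 (q := z) (i0 := i0)
    (Subtype.ext hi0) (fun l hl => Subtype.ext (hlt0 l hl)) hk hκ hqκ hmult
    (x := fun i => lev Φ α τ (k * i)) hx (S := S) (fun i n v hv l => hSb (k * i) n v hv l) ht hG0
    (fun i v hv => by
      have h1 := hg (k * i) v hv
      have h2 : G v / (d : ℝ) ^ (k * i) = G v / ((d : ℝ) ^ k) ^ i := by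
        rw [pow_mul]
      rw [h2] at h1
      exact h1) hvS hv (hμ v) (fun i => hgrow (k * i) v hv) (fun i => by
      have h1 := hdirq (k * i)
      rw [hqk] at h1
      exact h1)
  have hmin : ∀ i, van U (lev Φ α τ (k * (i + j))) ∈ J.minimalPrimes := by
    intro i
    obtain ⟨Q, hQ, hQle⟩ := Ideal.exists_minimalPrimes_le (hJle i)
    have hQp : Q.IsPrime := hQ.1.1
    have h1 : Algebra.trdeg K (MvPolynomial (Fin N) K ⧸ Q) ≤ 1 := hJ Q hQp hQ.1.2
    have h2 : ¬ Algebra.IsAlgebraic K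
        (MvPolynomial (Fin N) K ⧸ van U (lev Φ α τ (k * (i + j)))) := by
      exact van_transc fun c => lev_ne hτ hne _ c
    rw [← prime_eq hQle h1 h2]
    exact hQ
  have hfin : J.minimalPrimes.Finite := Ideal.finite_minimalPrimes_of_isNoetherianRing _ _
  have : Finite (J.minimalPrimes : Set _) := hfin.to_subtype
  obtain ⟨P, hP⟩ := Finite.exists_infinite_fiber
    (fun l : ℕ => (⟨van U (lev Φ α τ (k * (l + j))), hmin l⟩ : (J.minimalPrimes : Set _)))
  refine cyc (Φ := Φ) (c := fun l => van U (lev Φ α τ l)) (fun k l f => cmp_iter_mem' hτ k l f) (P := P.1) ?_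
  have h1 := (Set.infinite_coe_iff.1 hP).image (f := fun l => k * (l + j)) (by
    intro a _ b _ hab
    have h2 : k * (a + j) = k * (b + j) := hab
    have h3 := Nat.eq_of_mul_eq_mul_left hk h2
    omega)
  refine h1.mono ?_
  rintro _ ⟨l, hl, rfl⟩
  have h2 : (⟨van U (lev Φ α τ (k * (l + j))), hmin l⟩ : (J.minimalPrimes : Set _)) = P := hl
  exact congrArg Subtype.val h2

end Pool.Agent.Helper61.UC
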